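import Mathlib

/-!
# Connectivity of the twist graph of 3-colored triangulations

For `N ≡ 2 (mod 3)`, `N ≥ 8`, the graph `H_N` of colorful triangulations under twists is connected
exactly when `N ≥ 14`.
-/

namespace Pool.Agent.Results.MP_b57ad3_co.TwistConnectivity

/-- The chords of the convex `N`-gon with vertices `1, 2, ..., N` (in this cyclic order), the sides of the
polygon included.  The chord joining `a` and `b` with `a < b` is the pair `(a, b)`. -/
def chords (N : ℕ) : Finset (ℕ × ℕ) :=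
  ((Finset.Icc 1 N) ×ˢ (Finset.Icc 1 N)).filter (fun e => e.1 < e.2)

/-- Two chords cross when their endpoints are four distinct vertices that interleave. -/
def Cross (e f : ℕ × ℕ) : Prop :=
  (e.1 < f.1 ∧ f.1 < e.2 ∧ e.2 < f.2) ∨ (f.1 < e.1 ∧ e.1 < f.2 ∧ f.2 < e.2)

/-- A triangulation of the convex `N`-gon: a maximal set of pairwise non-crossing chords
(the sides of the polygon cross nothing, so they always belong to it). -/
def IsTriangulation (N : ℕ) (T : Finset (ℕ × ℕ)) : Prop :=
  Maximal (fun S : Finset (ℕ × ℕ) => S ⊆ chords N ∧ ∀ e ∈ S, ∀ f ∈ S, ¬ Cross e f) T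

/-- Vertex `i` has the color `i mod 3`; a triangulation is colorful when each of its triangles
has one vertex of each color. -/
def Colorful (T : Finset (ℕ × ℕ)) : Prop :=
  ∀ a b c : ℕ, (a, b) ∈ T → (b, c) ∈ T → (a, c) ∈ T →
    a % 3 ≠ b % 3 ∧ b % 3 ≠ c % 3 ∧ a % 3 ≠ c % 3

/-- `T'` is obtained from `T` by a twist: there is a hexagon `h₁ < h₂ < ... < h₆` all of whose sides
are in `T`, cut by `T` into an inner triangle (`h₁ h₃ h₅` or `h₂ h₄ h₆`) and its three neighbours, and
`T'` is `T` with the sides of the inner triangle replaced by those of the other one. -/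
def IsTwist (T T' : Finset (ℕ × ℕ)) : Prop :=
  ∃ h₁ h₂ h₃ h₄ h₅ h₆ : ℕ, h₁ < h₂ ∧ h₂ < h₃ ∧ h₃ < h₄ ∧ h₄ < h₅ ∧ h₅ < h₆ ∧
    ({(h₁, h₂), (h₂, h₃), (h₃, h₄), (h₄, h₅), (h₅, h₆), (h₁, h₆)} : Finset (ℕ × ℕ)) ⊆ T ∧
    ((({(h₁, h₃), (h₃, h₅), (h₁, h₅)} : Finset (ℕ × ℕ)) ⊆ T ∧
        T' = (T \ {(h₁, h₃), (h₃, h₅), (h₁, h₅)}) ∪ {(h₂, h₄), (h₄, h₆), (h₂, h₆)}) ∨
      (({(h₂, h₄), (h₄, h₆), (h₂, h₆)} : Finset (ℕ × ℕ)) ⊆ T ∧
        T' = (T \ {(h₂, h₄), (h₄, h₆), (h₂, h₆)}) ∪ {(h₁, h₃), (h₃, h₅), (h₁, h₅)}))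

/-- The twist graph `H_N`: its vertices are the colorful triangulations of the `N`-gon, two of them being
adjacent when one is obtained from the other by a twist. -/
def twistGraph (N : ℕ) : SimpleGraph {T : Finset (ℕ × ℕ) // IsTriangulation N T ∧ Colorful T} :=
  SimpleGraph.fromRel (fun T T' => IsTwist T.1 T'.1)

/-! ### Recursive description -/

/-- Auxiliary: colorful triangulations of the polygon with vertices `i, i+1, ..., j`, recursively. -/
inductive CT : ℕ → ℕ → Finset (ℕ × ℕ) → Prop
  | side (i : ℕ) : CT i (i + 1) {(i, i + 1)}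
  | node (i k j : ℕ) (A B : Finset (ℕ × ℕ)) (hA : CT i k A) (hB : CT k j B)
      (h1 : i % 3 ≠ k % 3) (h2 : k % 3 ≠ j % 3) (h3 : i % 3 ≠ j % 3) :
      CT i j (insert (i, j) (A ∪ B))

theorem CT.lt {i j : ℕ} {T : Finset (ℕ × ℕ)} (h : CT i j T) : i < j := by
  induction h with
  | side i => omega
  | node i k j A B hA hB h1 h2 h3 ihA ihB => omega

theorem CT.bounds {i j : ℕ} {T : Finset (ℕ × ℕ)} (h : CT i j T) :
    ∀ e ∈ T, i ≤ e.1 ∧ e.1 < e.2 ∧ e.2 ≤ j := by
  induction h with
  | side i => intro e he; simp only [Finset.mem_singleton] at he; subst he; simp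
  | node i k j A B hA hB h1 h2 h3 ihA ihB =>
    intro e he
    have hik := hA.lt
    have hkj := hB.lt
    simp only [Finset.mem_insert, Finset.mem_union] at he
    rcases he with rfl | he | he
    · simp; omega
    · have := ihA e he; omega
    · have := ihB e he; omega

theorem CT.mem {i j : ℕ} {T : Finset (ℕ × ℕ)} (h : CT i j T) : (i, j) ∈ T := by
  cases h with
  | side i => simp
  | node i k j A B hA hB h1 h2 h3 => simp

theorem CT.noncross {i j : ℕ} {T : Finset (ℕ × ℕ)} (h : CT i j T) :
    ∀ e ∈ T, ∀ f ∈ T, ¬ Cross e f := by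
  induction h with
  | side i =>
    intro e he f hf
    simp only [Finset.mem_singleton] at he hf
    subst he; subst hf
    simp [Cross]
  | node i k j A B hA hB h1 h2 h3 ihA ihB =>
    intro e he f hf
    have hik := hA.lt
    have hkj := hB.lt
    simp only [Finset.mem_insert, Finset.mem_union] at he hf
    rcases he with rfl | he | he
    · rcases hf with rfl | hf | hf
      · simp only [Cross]; omega
      · have := hA.bounds f hf; simp only [Cross]; omega
      · have := hB.bounds f hf; simp only [Cross]; omega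
    · have b1 := hA.bounds e he
      rcases hf with rfl | hf | hf
      · simp only [Cross]; omega
      · exact ihA e he f hf
      · have := hB.bounds f hf; simp only [Cross]; omega
    · have b1 := hB.bounds e he
      rcases hf with rfl | hf | hf
      · simp only [Cross]; omega
      · have := hA.bounds f hf; simp only [Cross]; omega
      · exact ihB e he f hf

theorem CT.maximal {i j : ℕ} {T : Finset (ℕ × ℕ)} (h : CT i j T) :
    ∀ e : ℕ × ℕ, i ≤ e.1 → e.1 < e.2 → e.2 ≤ j → (∀ f ∈ T, ¬ Cross e f) → e ∈ T := by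
  induction h with
  | side i =>
    intro e h1 h2 h3 h4
    have : e = (i, i + 1) := by ext <;> simp <;> omega
    simp [this]
  | node i k j A B hA hB c1 c2 c3 ihA ihB =>
    intro e h1 h2 h3 h4
    have hik := hA.lt
    have hkj := hB.lt
    simp only [Finset.mem_insert, Finset.mem_union]
    have n1 : ¬ Cross e (i, k) := h4 _ (by simp [hA.mem])
    have n2 : ¬ Cross e (k, j) := h4 _ (by simp [hB.mem])
    by_cases hk1 : e.2 ≤ k
    · right; left
      exact ihA e h1 h2 hk1 (fun f hf => h4 f (by simp [hf]))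
    · by_cases hk2 : k ≤ e.1
      · right; right
        exact ihB e hk2 h2 h3 (fun f hf => h4 f (by simp [hf]))
      · left
        simp only [Cross] at n1 n2
        ext
        · simp; omega
        · simp; omega

/-- In a node, a chord of the big polygon lying in the left part belongs to the left set. -/
theorem mem_left {i k j : ℕ} {A B : Finset (ℕ × ℕ)} (hA : CT i k A) (hB : CT k j B)
    {e : ℕ × ℕ} (he : e ∈ insert (i, j) (A ∪ B)) (h : e.2 ≤ k) : e ∈ A := by
  have hik := hA.lt
  have hkj := hB.lt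
  simp only [Finset.mem_insert, Finset.mem_union] at he
  rcases he with rfl | he | he
  · simp at h; omega
  · exact he
  · have := hB.bounds e he; omega

theorem mem_right {i k j : ℕ} {A B : Finset (ℕ × ℕ)} (hA : CT i k A) (hB : CT k j B)
    {e : ℕ × ℕ} (he : e ∈ insert (i, j) (A ∪ B)) (h : k ≤ e.1) : e ∈ B := by
  have hik := hA.lt
  have hkj := hB.lt
  simp only [Finset.mem_insert, Finset.mem_union] at he
  rcases he with rfl | he | he
  · simp at h; omega
  · have := hA.bounds e he; omega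
  · exact he

theorem CT.colorful {i j : ℕ} {T : Finset (ℕ × ℕ)} (h : CT i j T) : Colorful T := by
  induction h with
  | side i =>
    intro a b c h1 h2 h3
    simp only [Finset.mem_singleton, Prod.mk.injEq] at h1 h2 h3
    omega
  | node i k j A B hA hB c1 c2 c3 ihA ihB =>
    intro a b c h1 h2 h3
    have hT : CT i j (insert (i, j) (A ∪ B)) := CT.node i k j A B hA hB c1 c2 c3
    have hik := hA.lt
    have hkj := hB.lt
    have b1 := hT.bounds _ h1
    have b2 := hT.bounds _ h2
    have b3 := hT.bounds _ h3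
    simp only at b1 b2 b3
    by_cases hck : c ≤ k
    · exact ihA a b c (mem_left hA hB h1 (by simp; omega)) (mem_left hA hB h2 (by simp; omega))
        (mem_left hA hB h3 (by simp; omega))
    · by_cases hak : k ≤ a
      · exact ihB a b c (mem_right hA hB h1 (by simp; omega)) (mem_right hA hB h2 (by simp; omega))
          (mem_right hA hB h3 (by simp; omega))
      · have n1 := hT.noncross _ h3 (i, k) (by simp [hA.mem])
        have n2 := hT.noncross _ h3 (k, j) (by simp [hB.mem])
        have n3 := hT.noncross _ h1 (k, j) (by simp [hB.mem])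
        have n4 := hT.noncross _ h2 (i, k) (by simp [hA.mem])
        simp only [Cross] at n1 n2 n3 n4
        have ha : a = i := by omega
        have hc : c = j := by omega
        have hb : b = k := by omega
        subst ha; subst hc; subst hb
        exact ⟨c1, c2, c3⟩

/-- Auxiliary: maximal noncrossing sets in the polygon `i, ..., j`. -/
def MT (i j : ℕ) (T : Finset (ℕ × ℕ)) : Prop :=
  (∀ e ∈ T, i ≤ e.1 ∧ e.1 < e.2 ∧ e.2 ≤ j) ∧ (∀ e ∈ T, ∀ f ∈ T, ¬ Cross e f) ∧
    ∀ e : ℕ × ℕ, i ≤ e.1 → e.1 < e.2 → e.2 ≤ j → (∀ f ∈ T, ¬ Cross e f) → e ∈ T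

theorem cross_comm {e f : ℕ × ℕ} : Cross e f ↔ Cross f e := by
  simp only [Cross]; tauto

theorem not_cross_self (e : ℕ × ℕ) : ¬ Cross e e := by
  simp only [Cross]; omega

theorem isTriangulation_iff {N : ℕ} {T : Finset (ℕ × ℕ)} : IsTriangulation N T ↔ MT 1 N T := by
  have hch : ∀ e : ℕ × ℕ, e ∈ chords N ↔ 1 ≤ e.1 ∧ e.1 < e.2 ∧ e.2 ≤ N := by
    intro e
    simp only [chords, Finset.mem_filter, Finset.mem_product, Finset.mem_Icc]
    omega
  constructor
  · intro h
    obtain ⟨⟨hsub, hnc⟩, hmax⟩ := h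
    refine ⟨fun e he => (hch e).1 (hsub he), hnc, ?_⟩
    intro e h1 h2 h3 h4
    have : insert e T ≤ T := by
      apply hmax _ (Finset.subset_insert e T)
      refine ⟨?_, ?_⟩
      · intro f hf
        rw [Finset.mem_insert] at hf
        rcases hf with rfl | hf
        · exact (hch _).2 ⟨h1, h2, h3⟩
        · exact hsub hf
      · intro f hf g hg
        rw [Finset.mem_insert] at hf hg
        rcases hf with rfl | hf
        · rcases hg with rfl | hg
          · exact not_cross_self _
          · exact h4 g hg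
        · rcases hg with rfl | hg
          · rw [cross_comm]; exact h4 f hf
          · exact hnc f hf g hg
    exact this (Finset.mem_insert_self e T)
  · intro h
    obtain ⟨hsub, hnc, hmax⟩ := h
    refine ⟨⟨fun e he => (hch e).2 (hsub e he), hnc⟩, ?_⟩
    intro S hS hTS e he
    have := (hch e).1 (hS.1 he)
    exact hmax e this.1 this.2.1 this.2.2 (fun f hf => hS.2 e he f (hTS hf))

theorem MT.ct : ∀ (n i j : ℕ) (T : Finset (ℕ × ℕ)), j = i + n → 0 < n → MT i j T → Colorful T →
    CT i j T := by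
  intro n
  induction n using Nat.strong_induction_on with
  | _ n ih =>
    intro i j T hj hn hT hcol
    obtain ⟨hb, hnc, hmax⟩ := hT
    have hij : (i, j) ∈ T := by
      apply hmax (i, j) (by simp) (by simp; omega) (by simp)
      intro f hf
      have := hb f hf
      simp only [Cross]; omega
    by_cases hn1 : n = 1
    · have hT : T = {(i, i + 1)} := by
        ext e
        simp only [Finset.mem_singleton]
        constructor
        · intro he
          have := hb e he
          ext <;> simp <;> omega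
        · rintro rfl
          have hj' : j = i + 1 := by omega
          rw [← hj']; exact hij
      have hj' : j = i + 1 := by omega
      rw [hT, hj']
      exact CT.side i
    · -- choose the apex `k`
      have hi1 : (i, i + 1) ∈ T := by
        apply hmax (i, i + 1) (by simp) (by simp) (by simp; omega)
        intro f hf
        simp only [Cross]; omega
      have hS : ((Finset.Ioo i j).filter (fun k => (i, k) ∈ T)).Nonempty :=
        ⟨i + 1, by simp only [Finset.mem_filter, Finset.mem_Ioo]; exact ⟨by omega, hi1⟩⟩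
      obtain ⟨k, hk, hkmax⟩ := Finset.exists_max_image _ (fun k => k) hS
      simp only [Finset.mem_filter, Finset.mem_Ioo] at hk hkmax
      obtain ⟨⟨hik, hkj⟩, hikT⟩ := hk
      have hkjT : (k, j) ∈ T := by
        apply hmax (k, j) (by simp; omega) (by simp; omega) (by simp)
        intro f hf hcr
        have bf := hb f hf
        have n1 := hnc f hf (i, k) hikT
        simp only [Cross] at hcr n1
        have hf1 : f.1 = i := by omega
        have hf2 := hkmax f.2 ⟨by omega, by rw [← hf1]; exact hf⟩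
        omega
      -- restrict
      have key : T = insert (i, j) ((T.filter (fun e => e.2 ≤ k)) ∪ (T.filter (fun e => k ≤ e.1))) := by
        ext e
        simp only [Finset.mem_insert, Finset.mem_union, Finset.mem_filter]
        constructor
        · intro he
          have be := hb e he
          have n1 := hnc e he (i, k) hikT
          have n2 := hnc e he (k, j) hkjT
          simp only [Cross] at n1 n2
          by_cases h1 : e.2 ≤ k
          · exact Or.inr (Or.inl ⟨he, h1⟩)
          · by_cases h2 : k ≤ e.1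
            · exact Or.inr (Or.inr ⟨he, h2⟩)
            · left
              ext
              · simp; omega
              · simp; omega
        · rintro (rfl | ⟨h, _⟩ | ⟨h, _⟩)
          · exact hij
          · exact h
          · exact h
      have c := hcol i k j hikT hkjT hij
      have hA : CT i k (T.filter (fun e => e.2 ≤ k)) := by
        apply ih (k - i) (by omega) i k _ (by omega) (by omega)
        · refine ⟨?_, ?_, ?_⟩
          · intro e he
            simp only [Finset.mem_filter] at he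
            have := hb e he.1
            omega
          · intro e he f hf
            simp only [Finset.mem_filter] at he hf
            exact hnc e he.1 f hf.1
          · intro e h1 h2 h3 h4
            simp only [Finset.mem_filter]
            refine ⟨hmax e h1 h2 (by omega) ?_, h3⟩
            intro f hf
            by_cases hfk : f.2 ≤ k
            · exact h4 f (by simp only [Finset.mem_filter]; exact ⟨hf, hfk⟩)
            · have bf := hb f hf
              have n1 := hnc f hf (i, k) hikT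
              simp only [Cross] at n1 ⊢
              omega
        · intro a b c h1 h2 h3
          simp only [Finset.mem_filter] at h1 h2 h3
          exact hcol a b c h1.1 h2.1 h3.1
      have hB : CT k j (T.filter (fun e => k ≤ e.1)) := by
        apply ih (j - k) (by omega) k j _ (by omega) (by omega)
        · refine ⟨?_, ?_, ?_⟩
          · intro e he
            simp only [Finset.mem_filter] at he
            have := hb e he.1
            omega
          · intro e he f hf
            simp only [Finset.mem_filter] at he hf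
            exact hnc e he.1 f hf.1
          · intro e h1 h2 h3 h4
            simp only [Finset.mem_filter]
            refine ⟨hmax e (by omega) h2 h3 ?_, h1⟩
            intro f hf
            by_cases hfk : k ≤ f.1
            · exact h4 f (by simp only [Finset.mem_filter]; exact ⟨hf, hfk⟩)
            · have bf := hb f hf
              have n1 := hnc f hf (k, j) hkjT
              simp only [Cross] at n1 ⊢
              omega
        · intro a b c h1 h2 h3
          simp only [Finset.mem_filter] at h1 h2 h3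
          exact hcol a b c h1.1 h2.1 h3.1
      rw [key]
      exact CT.node i k j _ _ hA hB c.1 c.2.1 c.2.2

theorem isTriangulation_colorful_iff {N : ℕ} (hN : 2 ≤ N) {T : Finset (ℕ × ℕ)} :
    (IsTriangulation N T ∧ Colorful T) ↔ CT 1 N T := by
  constructor
  · rintro ⟨h1, h2⟩
    exact MT.ct (N - 1) 1 N T (by omega) (by omega) (isTriangulation_iff.1 h1) h2
  · intro h
    exact ⟨isTriangulation_iff.2 ⟨h.bounds, h.noncross, h.maximal⟩, h.colorful⟩

/-! ### Twists and the recursive description -/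

theorem IsTwist.union {A A' C : Finset (ℕ × ℕ)} (h : IsTwist A A') (hd : Disjoint A C) :
    IsTwist (A ∪ C) (A' ∪ C) := by
  obtain ⟨h₁, h₂, h₃, h₄, h₅, h₆, l1, l2, l3, l4, l5, hs, hh⟩ := h
  refine ⟨h₁, h₂, h₃, h₄, h₅, h₆, l1, l2, l3, l4, l5, hs.trans Finset.subset_union_left, ?_⟩
  rcases hh with ⟨hO, rfl⟩ | ⟨hO, rfl⟩
  · left
    refine ⟨hO.trans Finset.subset_union_left, ?_⟩
    have hd' := Finset.disjoint_of_subset_left hO hd
    rw [Finset.union_sdiff_distrib, Finset.sdiff_eq_self_of_disjoint hd'.symm,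
      Finset.union_right_comm]
  · right
    refine ⟨hO.trans Finset.subset_union_left, ?_⟩
    have hd' := Finset.disjoint_of_subset_left hO hd
    rw [Finset.union_sdiff_distrib, Finset.sdiff_eq_self_of_disjoint hd'.symm,
      Finset.union_right_comm]

/-- Auxiliary: gluing two parts along the root chord. -/
def nd (i j : ℕ) (A B : Finset (ℕ × ℕ)) : Finset (ℕ × ℕ) := insert (i, j) (A ∪ B)

theorem CT.nd {i k j : ℕ} {A B : Finset (ℕ × ℕ)} (hA : CT i k A) (hB : CT k j B)
    (h1 : i % 3 ≠ k % 3) (h2 : k % 3 ≠ j % 3) (h3 : i % 3 ≠ j % 3) :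
    CT i j (nd i j A B) := CT.node i k j A B hA hB h1 h2 h3

theorem CT.cases' {i j : ℕ} {T : Finset (ℕ × ℕ)} (h : CT i j T) :
    (j = i + 1 ∧ T = {(i, i + 1)}) ∨ ∃ k A B, CT i k A ∧ CT k j B ∧ i % 3 ≠ k % 3 ∧ k % 3 ≠ j % 3 ∧
      i % 3 ≠ j % 3 ∧ T = Pool.Agent.Results.MP_b57ad3_co.TwistConnectivity.nd i j A B := by
  cases h with
  | side i => left; exact ⟨rfl, rfl⟩
  | node i k j A B hA hB h1 h2 h3 => right; exact ⟨k, A, B, hA, hB, h1, h2, h3, rfl⟩

theorem twist_left {i k j : ℕ} {A A' B : Finset (ℕ × ℕ)} (hA : CT i k A) (hB : CT k j B)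
    (h : IsTwist A A') : IsTwist (nd i j A B) (nd i j A' B) := by
  have hd : Disjoint A (insert (i, j) B) := by
    rw [Finset.disjoint_left]
    intro e he he'
    have b1 := hA.bounds e he
    have hkj := hB.lt
    rw [Finset.mem_insert] at he'
    rcases he' with rfl | he'
    · simp at b1; omega
    · have := hB.bounds e he'; omega
  have := h.union hd
  simpa only [nd, Finset.union_insert] using this

theorem twist_right {i k j : ℕ} {A B B' : Finset (ℕ × ℕ)} (hA : CT i k A) (hB : CT k j B)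
    (h : IsTwist B B') : IsTwist (nd i j A B) (nd i j A B') := by
  have hd : Disjoint B (insert (i, j) A) := by
    rw [Finset.disjoint_left]
    intro e he he'
    have b1 := hB.bounds e he
    have hik := hA.lt
    rw [Finset.mem_insert] at he'
    rcases he' with rfl | he'
    · simp at b1; omega
    · have := hA.bounds e he'; omega
  have := h.union hd
  rw [Finset.union_insert, Finset.union_insert, Finset.union_comm B A, Finset.union_comm B' A] at this
  exact this

/-- The basic twist in terms of nodes. -/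
theorem twist_hex {h₁ h₂ h₃ h₄ h₅ h₆ : ℕ} {S₁ S₂ S₃ S₄ S₅ : Finset (ℕ × ℕ)}
    (c1 : CT h₁ h₂ S₁) (c2 : CT h₂ h₃ S₂) (c3 : CT h₃ h₄ S₃) (c4 : CT h₄ h₅ S₄) (c5 : CT h₅ h₆ S₅) :
    IsTwist (nd h₁ h₆ (nd h₁ h₅ (nd h₁ h₃ S₁ S₂) (nd h₃ h₅ S₃ S₄)) S₅)
      (nd h₁ h₆ S₁ (nd h₂ h₆ (nd h₂ h₄ S₂ S₃) (nd h₄ h₆ S₄ S₅))) := by
  have l1 := c1.lt
  have l2 := c2.lt
  have l3 := c3.lt
  have l4 := c4.lt
  have l5 := c5.lt
  refine ⟨h₁, h₂, h₃, h₄, h₅, h₆, l1, l2, l3, l4, l5, ?_, Or.inl ⟨?_, ?_⟩⟩
  · intro e he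
    simp only [Finset.mem_insert, Finset.mem_singleton] at he
    simp only [nd, Finset.mem_insert, Finset.mem_union]
    rcases he with rfl | rfl | rfl | rfl | rfl | rfl
    · simp [c1.mem]
    · simp [c2.mem]
    · simp [c3.mem]
    · simp [c4.mem]
    · simp [c5.mem]
    · simp
  · intro e he
    simp only [Finset.mem_insert, Finset.mem_singleton] at he
    simp only [nd, Finset.mem_insert, Finset.mem_union]
    rcases he with rfl | rfl | rfl
    · simp
    · simp
    · simp
  · have d : ∀ e : ℕ × ℕ, (e = (h₁, h₆) ∨ e ∈ S₁ ∨ e ∈ S₂ ∨ e ∈ S₃ ∨ e ∈ S₄ ∨ e ∈ S₅) →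
        ¬ (e = (h₁, h₃) ∨ e = (h₃, h₅) ∨ e = (h₁, h₅)) := by
      intro e he he'
      have he2 : (e.1 = h₁ ∧ e.2 = h₃) ∨ (e.1 = h₃ ∧ e.2 = h₅) ∨ (e.1 = h₁ ∧ e.2 = h₅) := by
        rcases he' with rfl | rfl | rfl <;> simp
      rcases he with rfl | he | he | he | he | he
      · simp at he2; omega
      · have := c1.bounds e he; omega
      · have := c2.bounds e he; omega
      · have := c3.bounds e he; omega
      · have := c4.bounds e he; omega
      · have := c5.bounds e he; omega
    ext e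
    have de := d e
    simp only [nd, Finset.mem_insert, Finset.mem_union, Finset.mem_sdiff, Finset.mem_singleton]
    tauto

/-- Auxiliary: a twist, in either direction, between colorful triangulations of `i, ..., j`. -/
def Step (i j : ℕ) (X Y : Finset (ℕ × ℕ)) : Prop :=
  CT i j X ∧ CT i j Y ∧ (IsTwist X Y ∨ IsTwist Y X)

/-- Auxiliary: connected by twists. -/
def Conn (i j : ℕ) : Finset (ℕ × ℕ) → Finset (ℕ × ℕ) → Prop := Relation.ReflTransGen (Step i j)

theorem Step.symm {i j : ℕ} {X Y : Finset (ℕ × ℕ)} (h : Step i j X Y) : Step i j Y X :=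
  ⟨h.2.1, h.1, h.2.2.symm⟩

theorem Conn.symm {i j : ℕ} {X Y : Finset (ℕ × ℕ)} (h : Conn i j X Y) : Conn i j Y X := by
  induction h with
  | refl => exact Relation.ReflTransGen.refl
  | tail _ hs ih => exact Relation.ReflTransGen.head hs.symm ih

theorem Conn.trans {i j : ℕ} {X Y Z : Finset (ℕ × ℕ)} (h : Conn i j X Y) (h' : Conn i j Y Z) :
    Conn i j X Z := Relation.ReflTransGen.trans h h'

theorem Conn.left {i k j : ℕ} {A A' B : Finset (ℕ × ℕ)} (h : Conn i k A A') (hB : CT k j B)
    (h1 : i % 3 ≠ k % 3) (h2 : k % 3 ≠ j % 3) (h3 : i % 3 ≠ j % 3) :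
    Conn i j (nd i j A B) (nd i j A' B) := by
  refine Relation.ReflTransGen.lift (r := Step i k) (fun X => nd i j X B) ?_ _ _ h
  rintro X Y ⟨hX, hY, hXY⟩
  refine ⟨hX.nd hB h1 h2 h3, hY.nd hB h1 h2 h3, ?_⟩
  rcases hXY with hXY | hXY
  · exact Or.inl (twist_left hX hB hXY)
  · exact Or.inr (twist_left hY hB hXY)

theorem Conn.right {i k j : ℕ} {A B B' : Finset (ℕ × ℕ)} (hA : CT i k A) (h : Conn k j B B')
    (h1 : i % 3 ≠ k % 3) (h2 : k % 3 ≠ j % 3) (h3 : i % 3 ≠ j % 3) :
    Conn i j (nd i j A B) (nd i j A B') := by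
  refine Relation.ReflTransGen.lift (r := Step k j) (fun X => nd i j A X) ?_ _ _ h
  rintro X Y ⟨hX, hY, hXY⟩
  refine ⟨hA.nd hX h1 h2 h3, hA.nd hY h1 h2 h3, ?_⟩
  rcases hXY with hXY | hXY
  · exact Or.inl (twist_right hA hX hXY)
  · exact Or.inr (twist_right hA hY hXY)

theorem conn_hex {h₁ h₂ h₃ h₄ h₅ h₆ : ℕ} {S₁ S₂ S₃ S₄ S₅ : Finset (ℕ × ℕ)}
    (c1 : CT h₁ h₂ S₁) (c2 : CT h₂ h₃ S₂) (c3 : CT h₃ h₄ S₃) (c4 : CT h₄ h₅ S₄) (c5 : CT h₅ h₆ S₅)
    (m : h₁ % 3 = h₄ % 3 ∧ h₂ % 3 = h₅ % 3 ∧ h₃ % 3 = h₆ % 3 ∧ h₁ % 3 ≠ h₂ % 3 ∧ h₂ % 3 ≠ h₃ % 3 ∧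
      h₁ % 3 ≠ h₃ % 3) :
    Conn h₁ h₆ (nd h₁ h₆ (nd h₁ h₅ (nd h₁ h₃ S₁ S₂) (nd h₃ h₅ S₃ S₄)) S₅)
      (nd h₁ h₆ S₁ (nd h₂ h₆ (nd h₂ h₄ S₂ S₃) (nd h₄ h₆ S₄ S₅))) := by
  apply Relation.ReflTransGen.single
  refine ⟨?_, ?_, Or.inl (twist_hex c1 c2 c3 c4 c5)⟩
  · exact ((c1.nd c2 (by omega) (by omega) (by omega)).nd (c3.nd c4 (by omega) (by omega) (by omega))
      (by omega) (by omega) (by omega)).nd c5 (by omega) (by omega) (by omega)
  · exact c1.nd ((c2.nd c3 (by omega) (by omega) (by omega)).nd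
      (c4.nd c5 (by omega) (by omega) (by omega)) (by omega) (by omega) (by omega))
      (by omega) (by omega) (by omega)

theorem exists_ct : ∀ (n i j : ℕ), j = i + n → n % 3 ≠ 0 → ∃ T, CT i j T := by
  intro n
  induction n using Nat.strong_induction_on with
  | _ n ih =>
    intro i j hj hn
    by_cases h1 : n = 1
    · subst h1; subst hj; exact ⟨_, CT.side i⟩
    · by_cases h2 : n % 3 = 2
      · obtain ⟨T, hT⟩ := ih (n - 1) (by omega) (i + 1) j (by omega) (by omega)
        exact ⟨_, (CT.side i).nd hT (by omega) (by omega) (by omega)⟩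
      · obtain ⟨T, hT⟩ := ih (n - 2) (by omega) (i + 2) j (by omega) (by omega)
        obtain ⟨S, hS⟩ := ih 2 (by omega) i (i + 2) (by omega) (by omega)
        exact ⟨_, hS.nd hT (by omega) (by omega) (by omega)⟩

/-- The polygon `i, ..., j` with a number of vertices divisible by three: all colorful triangulations are
connected by twists. -/
theorem conn_three : ∀ (n i j : ℕ), j = i + n → n % 3 = 2 → ∀ A B, CT i j A → CT i j B →
    Conn i j A B := by
  intro n
  induction n using Nat.strong_induction_on with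
  | _ n ih =>
    intro i j hj hn
    by_cases h2 : n = 2
    · -- a single triangulation
      have huniq : ∀ A, CT i j A → A = nd i j {(i, i + 1)} {(i + 1, i + 2)} := by
        intro A hA
        rcases hA.cases' with ⟨h, _⟩ | ⟨k, A1, A2, hA1, hA2, c1, c2, c3, rfl⟩
        · omega
        · have l1 := hA1.lt
          have l2 := hA2.lt
          have hk : k = i + 1 := by omega
          subst hk
          have hj' : j = i + 1 + 1 := by omega
          subst hj'
          rcases hA1.cases' with ⟨_, e1⟩ | ⟨k', B1, B2, hB1, hB2, _⟩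
          · rcases hA2.cases' with ⟨_, e2⟩ | ⟨k', B1, B2, hB1, hB2, _⟩
            · rw [e1, e2]
            · have := hB1.lt; have := hB2.lt; omega
          · have := hB1.lt; have := hB2.lt; omega
      intro A B hA hB
      rw [huniq A hA, huniq B hB]
      exact Relation.ReflTransGen.refl
    · -- the general case, `n ≥ 5`
      obtain ⟨W, hW⟩ := exists_ct (n - 3) (i + 2) (j - 1) (by omega) (by omega)
      have hs1 : CT i (i + 1) {(i, i + 1)} := CT.side i
      have hs2 : CT (i + 1) (i + 2) {(i + 1, i + 2)} := CT.side (i + 1)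
      have hsl : CT (j - 1) j {(j - 1, j)} := by
        have := CT.side (j - 1)
        rwa [show j - 1 + 1 = j by omega] at this
      have hM : CT i (i + 2) (nd i (i + 2) {(i, i + 1)} {(i + 1, i + 2)}) :=
        hs1.nd hs2 (by omega) (by omega) (by omega)
      -- first case: the apex is `i + 1`
      have caseA : ∀ B, CT (i + 1) j B → Conn i j (nd i j {(i, i + 1)} B)
          (nd i j (nd i (j - 1) (nd i (i + 2) {(i, i + 1)} {(i + 1, i + 2)}) W) {(j - 1, j)}) := by
        intro B hB
        rcases hB.cases' with ⟨h, _⟩ | ⟨y, B1, B2, hB1, hB2, c1, c2, c3, rfl⟩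
        · omega
        · have l1 := hB1.lt
          have l2 := hB2.lt
          obtain ⟨S34, h34⟩ := exists_ct (y - (i + 2)) (i + 2) y (by omega) (by omega)
          obtain ⟨S45, h45⟩ := exists_ct (j - 1 - y) y (j - 1) (by omega) (by omega)
          have e1 : Conn (i + 1) y B1 (nd (i + 1) y {(i + 1, i + 2)} S34) :=
            ih (y - (i + 1)) (by omega) (i + 1) y (by omega) (by omega) _ _ hB1
              (hs2.nd h34 (by omega) (by omega) (by omega))
          have e2 : Conn y j B2 (nd y j S45 {(j - 1, j)}) :=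
            ih (j - y) (by omega) y j (by omega) (by omega) _ _ hB2
              (h45.nd hsl (by omega) (by omega) (by omega))
          have e3 : Conn (i + 1) j (nd (i + 1) j B1 B2)
              (nd (i + 1) j (nd (i + 1) y {(i + 1, i + 2)} S34) (nd y j S45 {(j - 1, j)})) :=
            (Conn.left e1 hB2 (by omega) (by omega) (by omega)).trans
              (Conn.right (hs2.nd h34 (by omega) (by omega) (by omega)) e2
                (by omega) (by omega) (by omega))
          have e4 := Conn.right hs1 e3 (by omega) (by omega) (by omega)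
          have e5 := (conn_hex hs1 hs2 h34 h45 hsl (by omega)).symm
          have e6 : Conn (i + 2) (j - 1) (nd (i + 2) (j - 1) S34 S45) W :=
            ih (n - 3) (by omega) (i + 2) (j - 1) (by omega) (by omega) _ _
              (h34.nd h45 (by omega) (by omega) (by omega)) hW
          have e7 := Conn.left (Conn.right hM e6 (by omega) (by omega) (by omega)) hsl
            (by omega) (by omega) (by omega)
          exact (e4.trans e5).trans e7
      -- second case: any apex
      have caseB : ∀ A, CT i j A → Conn i j A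
          (nd i j (nd i (j - 1) (nd i (i + 2) {(i, i + 1)} {(i + 1, i + 2)}) W) {(j - 1, j)}) := by
        intro A₀ hA₀
        rcases hA₀.cases' with ⟨h, _⟩ | ⟨k, A, B, hA, hB, c1, c2, c3, rfl⟩
        · omega
        · have l1 := hA.lt
          have l2 := hB.lt
          rcases hA.cases' with ⟨hk, rfl⟩ | ⟨x, A1, A2, hA1, hA2, d1, d2, d3, rfl⟩
          · subst hk
            exact caseA B hB
          · have l3 := hA1.lt
            have l4 := hA2.lt
            obtain ⟨S23, h23⟩ := exists_ct (x - (i + 1)) (i + 1) x (by omega) (by omega)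
            obtain ⟨S34, h34⟩ := exists_ct 1 x (x + 1) (by omega) (by omega)
            obtain ⟨S45, h45⟩ := exists_ct (k - (x + 1)) (x + 1) k (by omega) (by omega)
            have e1 : Conn i x A1 (nd i x {(i, i + 1)} S23) :=
              ih (x - i) (by omega) i x (by omega) (by omega) _ _ hA1
                (hs1.nd h23 (by omega) (by omega) (by omega))
            have e2 : Conn x k A2 (nd x k S34 S45) :=
              ih (k - x) (by omega) x k (by omega) (by omega) _ _ hA2
                (h34.nd h45 (by omega) (by omega) (by omega))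
            have e3 : Conn i k (nd i k A1 A2) (nd i k (nd i x {(i, i + 1)} S23) (nd x k S34 S45)) :=
              (Conn.left e1 hA2 (by omega) (by omega) (by omega)).trans
                (Conn.right (hs1.nd h23 (by omega) (by omega) (by omega)) e2
                  (by omega) (by omega) (by omega))
            have e4 := Conn.left e3 hB (by omega) (by omega) (by omega)
            have e5 := conn_hex hs1 h23 h34 h45 hB (by omega)
            refine (e4.trans e5).trans (caseA _ ?_)
            exact (h23.nd h34 (by omega) (by omega) (by omega)).nd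
              (h45.nd hB (by omega) (by omega) (by omega)) (by omega) (by omega) (by omega)
      intro A B hA hB
      exact (caseB A hA).trans (caseB B hB).symm

/-- Change of the root apex in the polygon `1, ..., N`, `N ≡ 2 (mod 3)`. -/
theorem conn_apex {N x k : ℕ} (hN : N % 3 = 2) (hx : x % 3 = 0) (hx0 : 0 < x) (hk : k % 3 = 0)
    (hxk : x + 6 ≤ k) (hkN : k < N) {A B : Finset (ℕ × ℕ)} (hA : CT 1 k A) (hB : CT k N B)
    {A' B' : Finset (ℕ × ℕ)} (hA' : CT 1 x A') (hB' : CT x N B') :
    Conn 1 N (nd 1 N A B) (nd 1 N A' B') := by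
  obtain ⟨S1, h1⟩ := exists_ct (x - 1) 1 x (by omega) (by omega)
  obtain ⟨S2, h2⟩ := exists_ct 2 x (x + 2) (by omega) (by omega)
  obtain ⟨S3, h3⟩ := exists_ct 2 (x + 2) (x + 4) (by omega) (by omega)
  obtain ⟨S4, h4⟩ := exists_ct (k - (x + 4)) (x + 4) k (by omega) (by omega)
  have e1 : Conn 1 k A (nd 1 k (nd 1 (x + 2) S1 S2) (nd (x + 2) k S3 S4)) :=
    conn_three (k - 1) 1 k (by omega) (by omega) _ _ hA
      ((h1.nd h2 (by omega) (by omega) (by omega)).nd (h3.nd h4 (by omega) (by omega) (by omega))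
        (by omega) (by omega) (by omega))
  have e2 := Conn.left e1 hB (by omega) (by omega) (by omega)
  have e3 := conn_hex h1 h2 h3 h4 hB (by omega)
  have h5 : CT x N (nd x N (nd x (x + 4) S2 S3) (nd (x + 4) N S4 B)) :=
    (h2.nd h3 (by omega) (by omega) (by omega)).nd (h4.nd hB (by omega) (by omega) (by omega))
      (by omega) (by omega) (by omega)
  have e4 : Conn 1 x S1 A' := conn_three (x - 1) 1 x (by omega) (by omega) _ _ h1 hA'
  have e5 : Conn x N (nd x N (nd x (x + 4) S2 S3) (nd (x + 4) N S4 B)) B' :=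
    conn_three (N - x) x N (by omega) (by omega) _ _ h5 hB'
  exact ((e2.trans e3).trans (Conn.left e4 h5 (by omega) (by omega) (by omega))).trans
    (Conn.right hA' e5 (by omega) (by omega) (by omega))

theorem conn_two {N : ℕ} (hN : N % 3 = 2) (hN14 : 14 ≤ N) {X Y : Finset (ℕ × ℕ)} (hX : CT 1 N X)
    (hY : CT 1 N Y) : Conn 1 N X Y := by
  obtain ⟨P3, p3⟩ := exists_ct 2 1 3 (by omega) (by omega)
  obtain ⟨Q3, q3⟩ := exists_ct (N - 3) 3 N (by omega) (by omega)
  obtain ⟨P12, p12⟩ := exists_ct 11 1 12 (by omega) (by omega)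
  obtain ⟨Q12, q12⟩ := exists_ct (N - 12) 12 N (by omega) (by omega)
  have h12 := conn_apex (x := 3) (k := 12) hN (by omega) (by omega) (by omega) (by omega) (by omega)
    p12 q12 p3 q3
  have key : ∀ X, CT 1 N X → Conn 1 N X (nd 1 N P3 Q3) := by
    intro X hX
    rcases hX.cases' with ⟨h, _⟩ | ⟨k, A, B, hA, hB, c1, c2, c3, rfl⟩
    · omega
    · have l1 := hA.lt
      have l2 := hB.lt
      by_cases h3 : k = 3
      · subst h3
        have e1 : Conn 1 3 A P3 := conn_three 2 1 3 (by omega) (by omega) _ _ hA p3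
        have e2 : Conn 3 N B Q3 := conn_three (N - 3) 3 N (by omega) (by omega) _ _ hB q3
        exact (Conn.left e1 hB (by omega) (by omega) (by omega)).trans
          (Conn.right p3 e2 (by omega) (by omega) (by omega))
      · by_cases h6 : k = 6
        · subst h6
          exact ((conn_apex (x := 6) (k := 12) hN (by omega) (by omega) (by omega) (by omega)
            (by omega) p12 q12 hA hB).symm).trans h12
        · exact conn_apex (x := 3) (k := k) hN (by omega) (by omega) (by omega) (by omega)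
            (by omega) hA hB p3 q3
  exact (key X hX).trans (key Y hY).symm

/-! ### The graph -/

theorem reachable_of_conn {N : ℕ} (hN : 2 ≤ N) {X Y : Finset (ℕ × ℕ)} (h : Conn 1 N X Y)
    (hX : IsTriangulation N X ∧ Colorful X) (hY : IsTriangulation N Y ∧ Colorful Y) :
    (twistGraph N).Reachable ⟨X, hX⟩ ⟨Y, hY⟩ := by
  induction h with
  | refl => exact SimpleGraph.Reachable.refl _
  | @tail Z W hXZ hZW ih =>
    have hZ := (isTriangulation_colorful_iff hN).2 hZW.1
    have h1 := ih hZ
    by_cases hEq : Z = W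
    · subst hEq; exact h1
    · refine h1.trans (SimpleGraph.Adj.reachable ?_)
      rw [twistGraph, SimpleGraph.fromRel_adj]
      refine ⟨?_, hZW.2.2⟩
      intro he
      exact hEq (congrArg Subtype.val he)

theorem exists_apex {N : ℕ} (hN : N % 3 = 2) (hN3 : 3 ≤ N) {T : Finset (ℕ × ℕ)} (h : CT 1 N T) :
    ∃ k, k % 3 = 0 ∧ 0 < k ∧ k < N ∧ (1, k) ∈ T ∧ (k, N) ∈ T := by
  rcases h.cases' with ⟨h, _⟩ | ⟨k, A, B, hA, hB, c1, c2, c3, rfl⟩
  · omega
  · have l1 := hA.lt
    have l2 := hB.lt
    refine ⟨k, by omega, by omega, by omega, ?_, ?_⟩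
    · simp [nd, hA.mem]
    · simp [nd, hB.mem]

theorem mod_third {a b c : ℕ} (h : a % 3 ≠ b % 3 ∧ b % 3 ≠ c % 3 ∧ a % 3 ≠ c % 3) :
    a % 3 + b % 3 + c % 3 = 3 := by omega

theorem arith_odd {N k k' h₁ h₂ h₃ h₄ h₅ h₆ : ℕ} (hN : N % 3 = 2) (l1 : h₁ < h₂) (l2 : h₂ < h₃)
    (l3 : h₃ < h₄) (l4 : h₄ < h₅) (l5 : h₅ < h₆) (b1 : 1 ≤ h₁) (b2 : h₆ ≤ N)
    (m1 : (k' = h₂ ∧ N = h₄) ∨ (k' = h₄ ∧ N = h₆) ∨ (k' = h₂ ∧ N = h₆))
    (m2 : (1 = h₁ ∧ k = h₃) ∨ (1 = h₃ ∧ k = h₅) ∨ (1 = h₁ ∧ k = h₅))
    (n3 : k ≠ h₃) (ck : 1 % 3 + k % 3 + N % 3 = 3) (ck' : 1 % 3 + k' % 3 + N % 3 = 3)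
    (t1 : h₁ % 3 + h₂ % 3 + h₃ % 3 = 3) (t2 : h₃ % 3 + h₄ % 3 + h₅ % 3 = 3)
    (t3 : h₁ % 3 + h₃ % 3 + h₅ % 3 = 3) : k' + 6 ≤ k := by
  have e6 : h₆ = N := by clear ck ck' t1 t2 t3; omega
  have e1 : h₁ = 1 := by clear ck ck' t1 t2 t3; omega
  have e5 : h₅ = k := by clear ck ck' t1 t2 t3; omega
  clear m2
  have r5 : h₅ % 3 = 0 := by omega
  have r3 : h₃ % 3 = 2 := by omega
  have r2 : h₂ % 3 = 0 := by omega
  have r4 : h₄ % 3 = 1 := by omega
  have e2 : k' = h₂ := by
    rcases m1 with h | h | h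
    · exact h.1
    · omega
    · exact h.1
  omega

theorem arith_even {N k k' h₁ h₂ h₃ h₄ h₅ h₆ : ℕ} (hN : N % 3 = 2) (l1 : h₁ < h₂) (l2 : h₂ < h₃)
    (l3 : h₃ < h₄) (l4 : h₄ < h₅) (l5 : h₅ < h₆) (b1 : 1 ≤ h₁) (b2 : h₆ ≤ N)
    (m1 : (1 = h₁ ∧ k' = h₃) ∨ (1 = h₃ ∧ k' = h₅) ∨ (1 = h₁ ∧ k' = h₅))
    (m2 : (k = h₂ ∧ N = h₄) ∨ (k = h₄ ∧ N = h₆) ∨ (k = h₂ ∧ N = h₆))
    (n3 : k' ≠ h₃) (ck : 1 % 3 + k % 3 + N % 3 = 3) (ck' : 1 % 3 + k' % 3 + N % 3 = 3)
    (t1 : h₁ % 3 + h₂ % 3 + h₆ % 3 = 3) (t2 : h₂ % 3 + h₃ % 3 + h₄ % 3 = 3)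
    (t3 : h₄ % 3 + h₅ % 3 + h₆ % 3 = 3) : k + 6 ≤ k' := by
  have e6 : h₆ = N := by clear ck ck' t1 t2 t3; omega
  have e1 : h₁ = 1 := by clear ck ck' t1 t2 t3; omega
  have e5 : h₅ = k' := by clear ck ck' t1 t2 t3; omega
  clear m1
  have r5 : h₅ % 3 = 0 := by omega
  have r2 : h₂ % 3 = 0 := by omega
  have r4 : h₄ % 3 = 1 := by omega
  have r3 : h₃ % 3 = 2 := by omega
  have e2 : k = h₂ := by
    rcases m2 with h | h | h
    · exact h.1
    · omega
    · exact h.1
  omega

theorem mem_new {T T' : Finset (ℕ × ℕ)} {a b c d e f : ℕ × ℕ}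
    (h : T' = (T \ {a, b, c}) ∪ {d, e, f}) {p q : ℕ} (hx : (p, q) ∈ T') (hn : (p, q) ∉ T) :
    (p = d.1 ∧ q = d.2) ∨ (p = e.1 ∧ q = e.2) ∨ (p = f.1 ∧ q = f.2) := by
  rw [h, Finset.mem_union] at hx
  rcases hx with hx | hx
  · exact absurd (Finset.mem_sdiff.1 hx).1 hn
  · simpa only [Finset.mem_insert, Finset.mem_singleton, Prod.ext_iff] using hx

theorem mem_old {T T' : Finset (ℕ × ℕ)} {a b c d e f : ℕ × ℕ}
    (h : T' = (T \ {a, b, c}) ∪ {d, e, f}) {p q : ℕ} (hx : (p, q) ∈ T) (hn : (p, q) ∉ T') :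
    (p = a.1 ∧ q = a.2) ∨ (p = b.1 ∧ q = b.2) ∨ (p = c.1 ∧ q = c.2) := by
  by_contra hne
  apply hn
  rw [h, Finset.mem_union, Finset.mem_sdiff]
  refine Or.inl ⟨hx, ?_⟩
  simpa only [Finset.mem_insert, Finset.mem_singleton, Prod.ext_iff] using hne

/-- A twist moves the apex of the triangle at the side `1 N` by at least `6`, or not at all. -/
theorem apex_jump {N k k' : ℕ} (hN : N % 3 = 2) {T T' : Finset (ℕ × ℕ)} (hT : CT 1 N T)
    (hT' : CT 1 N T') (h : IsTwist T T') (hk : (1, k) ∈ T) (hk2 : (k, N) ∈ T)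
    (hk' : (1, k') ∈ T') (hk2' : (k', N) ∈ T') : k = k' ∨ k + 6 ≤ k' ∨ k' + 6 ≤ k := by
  obtain ⟨h₁, h₂, h₃, h₄, h₅, h₆, l1, l2, l3, l4, l5, hs, hh⟩ := h
  have s12 : (h₁, h₂) ∈ T := hs (by simp)
  have s23 : (h₂, h₃) ∈ T := hs (by simp)
  have s34 : (h₃, h₄) ∈ T := hs (by simp)
  have s45 : (h₄, h₅) ∈ T := hs (by simp)
  have s56 : (h₅, h₆) ∈ T := hs (by simp)
  have s16 : (h₁, h₆) ∈ T := hs (by simp)
  have b16 := hT.bounds _ s16
  have bk := hT.bounds _ hk
  have bk2 := hT.bounds _ hk2
  have bk' := hT'.bounds _ hk'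
  have bk2' := hT'.bounds _ hk2'
  simp only at b16 bk bk2 bk' bk2'
  have col := hT.colorful
  have col' := hT'.colorful
  have ck := mod_third (col 1 k N hk hk2 hT.mem)
  have ck' := mod_third (col' 1 k' N hk' hk2' hT'.mem)
  rcases hh with ⟨hO, hT'eq⟩ | ⟨hO, hT'eq⟩
  · have o13 : (h₁, h₃) ∈ T := hO (by simp)
    have o35 : (h₃, h₅) ∈ T := hO (by simp)
    have o15 : (h₁, h₅) ∈ T := hO (by simp)
    rcases lt_trichotomy k k' with hlt | heq | hgt
    · -- the chord `(1, k')` is new
      have n1 : (1, k') ∉ T := fun hm => hT.noncross _ hk2 _ hm (by simp only [Cross]; omega)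
      have := mem_new hT'eq hk' n1
      simp only at this
      omega
    · exact Or.inl heq
    · have n1 : (k', N) ∉ T := fun hm => hT.noncross _ hk _ hm (by simp only [Cross]; omega)
      have n2 : (1, k) ∉ T' := fun hm => hT'.noncross _ hm _ hk2' (by simp only [Cross]; omega)
      have m1 := mem_new hT'eq hk2' n1
      have m2 := mem_old hT'eq hk n2
      have n3 : k ≠ h₃ := by
        rintro rfl
        refine hT.noncross _ hk2 _ o15 ?_
        simp only at m1 m2
        simp only [Cross]; omega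
      right; right
      exact arith_odd hN l1 l2 l3 l4 l5 b16.1 b16.2.2 m1 m2 n3 ck ck'
        (mod_third (col h₁ h₂ h₃ s12 s23 o13)) (mod_third (col h₃ h₄ h₅ s34 s45 o35))
        (mod_third (col h₁ h₃ h₅ o13 o35 o15))
  · have e24 : (h₂, h₄) ∈ T := hO (by simp)
    have e46 : (h₄, h₆) ∈ T := hO (by simp)
    have e26 : (h₂, h₆) ∈ T := hO (by simp)
    have o15 : (h₁, h₅) ∈ T' := by rw [hT'eq]; simp
    rcases lt_trichotomy k k' with hlt | heq | hgt
    · have n1 : (1, k') ∉ T := fun hm => hT.noncross _ hm _ hk2 (by simp only [Cross]; omega)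
      have n2 : (k, N) ∉ T' := fun hm => hT'.noncross _ hk' _ hm (by simp only [Cross]; omega)
      have m1 := mem_new hT'eq hk' n1
      have m2 := mem_old hT'eq hk2 n2
      have n3 : k' ≠ h₃ := by
        rintro rfl
        refine hT'.noncross _ hk2' _ o15 ?_
        simp only at m1 m2
        simp only [Cross]; omega
      right; left
      exact arith_even hN l1 l2 l3 l4 l5 b16.1 b16.2.2 m1 m2 n3 ck ck'
        (mod_third (col h₁ h₂ h₆ s12 e26 s16)) (mod_third (col h₂ h₃ h₄ s23 s34 e24))
        (mod_third (col h₄ h₅ h₆ s45 s56 e46))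
    · exact Or.inl heq
    · have n2 : (1, k) ∉ T' := fun hm => hT'.noncross _ hm _ hk2' (by simp only [Cross]; omega)
      have := mem_old hT'eq hk n2
      simp only at this
      omega

/-- For every `N ≥ 8` with `N ≡ 2 (mod 3)`, the twist graph `H_N` is connected if and only if
`N ≥ 14`. -/
theorem result : ∀ N : ℕ, 8 ≤ N → N % 3 = 2 → ((twistGraph N).Connected ↔ 14 ≤ N) := by
  intro N hN8 hN
  constructor
  · intro hconn
    by_contra hlt
    push Not at hlt
    obtain ⟨P3, p3⟩ := exists_ct 2 1 3 (by omega) (by omega)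
    obtain ⟨Q3, q3⟩ := exists_ct (N - 3) 3 N (by omega) (by omega)
    obtain ⟨P6, p6⟩ := exists_ct 5 1 6 (by omega) (by omega)
    obtain ⟨Q6, q6⟩ := exists_ct (N - 6) 6 N (by omega) (by omega)
    have c3 : CT 1 N (nd 1 N P3 Q3) := p3.nd q3 (by omega) (by omega) (by omega)
    have c6 : CT 1 N (nd 1 N P6 Q6) := p6.nd q6 (by omega) (by omega) (by omega)
    have hreach := hconn.preconnected
      ⟨_, (isTriangulation_colorful_iff (by omega)).2 c6⟩
      ⟨_, (isTriangulation_colorful_iff (by omega)).2 c3⟩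
    -- the apex `6` is preserved along walks
    have hinv : ∀ u v : {T : Finset (ℕ × ℕ) // IsTriangulation N T ∧ Colorful T},
        (twistGraph N).Adj u v → ((1, 6) ∈ u.1 ∧ (6, N) ∈ u.1) → ((1, 6) ∈ v.1 ∧ (6, N) ∈ v.1) := by
      rintro ⟨X, hX⟩ ⟨Y, hY⟩ hadj ⟨h16, h6N⟩
      rw [twistGraph, SimpleGraph.fromRel_adj] at hadj
      have cX := (isTriangulation_colorful_iff (by omega)).1 hX
      have cY := (isTriangulation_colorful_iff (by omega)).1 hY
      obtain ⟨k, hk0, hkpos, hkN, hk1, hk2⟩ := exists_apex hN (by omega) cY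
      simp only at h16 h6N ⊢
      have : k = 6 := by
        rcases hadj.2 with h | h
        · have := apex_jump hN cX cY h h16 h6N hk1 hk2
          omega
        · have := apex_jump hN cY cX h hk1 hk2 h16 h6N
          omega
      subst this
      exact ⟨hk1, hk2⟩
    obtain ⟨w⟩ := hreach
    have hwalk : ∀ (u v : {T : Finset (ℕ × ℕ) // IsTriangulation N T ∧ Colorful T})
        (w : (twistGraph N).Walk u v), ((1, 6) ∈ u.1 ∧ (6, N) ∈ u.1) →
          ((1, 6) ∈ v.1 ∧ (6, N) ∈ v.1) := by
      intro u v w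
      induction w with
      | nil => exact id
      | cons h _ ih => exact fun hu => ih (hinv _ _ h hu)
    have h1 := hwalk _ _ w ⟨by simp [nd, p6.mem], by simp [nd, q6.mem]⟩
    have h2 : (3, N) ∈ nd 1 N P3 Q3 := by simp [nd, q3.mem]
    exact c3.noncross _ h1.1 _ h2 (by simp only [Cross]; omega)
  · intro hN14
    obtain ⟨P, hP⟩ := exists_ct (N - 1) 1 N (by omega) (by omega)
    have : Nonempty {T : Finset (ℕ × ℕ) // IsTriangulation N T ∧ Colorful T} :=
      ⟨⟨P, (isTriangulation_colorful_iff (by omega)).2 hP⟩⟩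
    refine SimpleGraph.Connected.mk ?_
    rintro ⟨X, hX⟩ ⟨Y, hY⟩
    have cX := (isTriangulation_colorful_iff (by omega)).1 hX
    have cY := (isTriangulation_colorful_iff (by omega)).1 hY
    exact reachable_of_conn (by omega) (conn_two hN hN14 cX cY) hX hY

end Pool.Agent.Results.MP_b57ad3_co.TwistConnectivity
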